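import Pool.Agent.Helper764.KacFin

/-!
# The constant term in the expected number of real zeros of Kac polynomials

For *every* law `μ` on `ℝ` with mean `0` and variance `1`, the expected number `e_n` of distinct real
roots of `ξ_0 + ξ_1 x + ... + ξ_n x^n` (i.i.d. coefficients with law `μ`) satisfies
`e_n = (2/π) log n + C_ξ + o(1)`, and the constant is identified.
-/

set_option autoImplicit false
open MeasureTheory ProbabilityTheory Filter Topology Set

namespace Pool.Agent.Results.MP_5fc11c_pr.KacConstant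

/-- The Kac polynomial `∑_{k ≤ n} ξ_k X^k`. -/
noncomputable def kacPoly (n : ℕ) (ξ : ℕ → ℝ) : Polynomial ℝ :=
  ∑ k ∈ Finset.range (n + 1), Polynomial.C (ξ k) * Polynomial.X ^ k

/-- Number of distinct real roots of a real polynomial (`0` for the zero polynomial, as
`Polynomial.roots 0 = 0`). -/
noncomputable def numRealRoots (p : Polynomial ℝ) : ℕ := p.roots.toFinset.card

/-- The law of a sequence `ξ_0, ξ_1, ...` of independent random variables with common law `μ`. -/
noncomputable def iidLaw (μ : Measure ℝ) : Measure (ℕ → ℝ) := Measure.infinitePi (fun _ : ℕ => μ)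

/-- `e_n(ξ) = E N_n(ℝ)`. -/
noncomputable def expectedRoots (μ : Measure ℝ) (n : ℕ) : ℝ :=
  ∫ ξ, (numRealRoots (kacPoly n ξ) : ℝ) ∂(iidLaw μ)

/-- Number of distinct zeros of the power series `∑ ξ_k x^k` in `{x : 0 < |x| < r}`. -/
noncomputable def seriesZeros (ξ : ℕ → ℝ) (r : ℝ) : ℕ :=
  {x : ℝ | 0 < |x| ∧ |x| < r ∧ ∑' k : ℕ, ξ k * x ^ k = 0}.ncard

/-- Kac's constant (the value of `C_ξ` for standard Gaussian coefficients, `0.62573...`):
`(2/π) log 2 + (4/π) (∫_0^1 g + ∫_1^∞ (g(u) - 1/(2u)) du)`, `g(u) = ½ √(1/u² - 1/sinh² u)`. -/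
noncomputable def kacConst : ℝ :=
  (2 / Real.pi) * Real.log 2
    + (4 / Real.pi) * ((∫ u in Ioc (0 : ℝ) 1, (1 / 2) * Real.sqrt (1 / u ^ 2 - 1 / Real.sinh u ^ 2))
      + ∫ u in Ioi (1 : ℝ), ((1 / 2) * Real.sqrt (1 / u ^ 2 - 1 / Real.sinh u ^ 2) - 1 / (2 * u)))

theorem numRealRoots_eq (p : Polynomial ℝ) : numRealRoots p = Kac764.nz p univ := by
  unfold numRealRoots Kac764.nz
  rw [← Set.ncard_coe_finset]
  congr 1
  ext x
  simp [Polynomial.mem_roots']

theorem seriesZeros_eq (ξ : ℕ → ℝ) (r : ℝ) :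
    seriesZeros ξ r = Kac764.Ninf ξ {x : ℝ | 0 < |x| ∧ |x| < r} := by
  unfold seriesZeros Kac764.Ninf Kac764.F0
  congr 1
  ext x
  simp [and_assoc]

theorem kacConst_eq : kacConst = Kac764.gaussConst := rfl

theorem kacPoly_eq (n : ℕ) (ξ : ℕ → ℝ) : kacPoly n ξ = Kac764.kac n ξ := rfl

/-- **Main theorem.** Let `μ` be any law on `ℝ` with mean `0` and variance `1`.
(i) `e_n` is a genuine expectation (the number of roots is integrable), almost surely the power
series `∑ ξ_k x^k` converges on `(-1,1)` and has finitely many zeros in `0 < |x| < r` for every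
`r < 1`, with integrable number of zeros.
(ii) The limit `L = lim_{r→1-} (2 E #{0<|x|<r : ∑ ξ_k x^k = 0} - (2/π) log((1+r)/(1-r)))` exists.
(iii) `e_n(ξ) - (2/π) log n → C_ξ = μ{0} + kacConst + L`. -/
theorem result (μ : Measure ℝ) [IsProbabilityMeasure μ] (hint : Integrable (fun x : ℝ => x ^ 2) μ)
    (hmean : ∫ x, x ∂μ = 0) (hvar : ∫ x, x ^ 2 ∂μ = 1) :
    (∀ n : ℕ, Integrable (fun ξ => (numRealRoots (kacPoly n ξ) : ℝ)) (iidLaw μ)) ∧
    (∀ᵐ ξ ∂(iidLaw μ), (∀ x : ℝ, |x| < 1 → Summable (fun k : ℕ => ξ k * x ^ k)) ∧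
      ∀ r < 1, {x : ℝ | 0 < |x| ∧ |x| < r ∧ ∑' k : ℕ, ξ k * x ^ k = 0}.Finite) ∧
    (∀ r < 1, Integrable (fun ξ => (seriesZeros ξ r : ℝ)) (iidLaw μ)) ∧
    ∃ L : ℝ,
      Tendsto (fun r : ℝ => 2 * (∫ ξ, (seriesZeros ξ r : ℝ) ∂(iidLaw μ))
          - (2 / Real.pi) * Real.log ((1 + r) / (1 - r))) (𝓝[<] 1) (𝓝 L) ∧
      Tendsto (fun n : ℕ => expectedRoots μ n - (2 / Real.pi) * Real.log n) atTop
        (𝓝 (μ.real {0} + kacConst + L)) := by
  have hμ : Kac764.Std μ := ⟨inferInstance, hint, hmean, hvar⟩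
  haveI : IsProbabilityMeasure (Kac764.PP μ) := inferInstance
  refine ⟨?_, ?_, ?_, ?_⟩
  · intro n
    have hm : Measurable (fun ω : ℕ → ℝ => Kac764.nz (Kac764.kac n ω) univ) :=
      Kac764.H4.measurable_nz_set n univ (Or.inl rfl)
    have hm' : Measurable (fun ω : ℕ → ℝ => (Kac764.nz (Kac764.kac n ω) univ : ℝ)) :=
      measurable_from_top.comp hm
    simp only [numRealRoots_eq, kacPoly_eq]
    refine Integrable.of_bound (μ := Kac764.PP μ) hm'.aestronglyMeasurable (n : ℝ) ?_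
    filter_upwards with ω
    rw [Real.norm_eq_abs, abs_of_nonneg (by positivity)]
    exact_mod_cast Kac764.H4.nz_natDegree_kac n ω univ
  · have h1 := Kac764.G1.ae_sumOK μ hμ
    have h2 := Kac764.G1.ae_exists_ne μ hμ
    change ∀ᵐ ξ ∂(Kac764.PP μ), _
    filter_upwards [h1, h2] with ξ h1 h2
    refine ⟨?_, ?_⟩
    · intro x hx
      have := h1 |x| (abs_nonneg x) hx
      refine Summable.of_norm_bounded this fun k => ?_
      rw [Real.norm_eq_abs, abs_mul, abs_pow]
    · intro r hr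
      by_contra hinf
      have hinf : {x : ℝ | 0 < |x| ∧ |x| < r ∧ ∑' k : ℕ, ξ k * x ^ k = 0}.Infinite := hinf
      obtain ⟨z, hz, hacc⟩ := hinf.exists_accPt_of_subset_isCompact (isCompact_Icc (a := -r) (b := r))
        (fun x hx => by
          have := abs_lt.1 hx.2.1
          exact ⟨this.1.le, this.2.le⟩)
      have hz1 : |z| < 1 := by
        rw [abs_lt]
        exact ⟨by linarith [hz.1], by linarith [hz.2]⟩
      obtain ⟨han, hnz⟩ := Kac764.A1.F0_local_zero ξ h1 h2 z hz1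
      rcases han.eventually_eq_zero_or_eventually_ne_zero with h | h
      · exact hnz h
      · rw [accPt_iff_frequently] at hacc
        rw [eventually_nhdsWithin_iff] at h
        obtain ⟨y, hy1, hy2⟩ := (hacc.and_eventually h).exists
        exact hy2 hy1.1 hy1.2.2.2
  · intro r hr
    simp only [seriesZeros_eq]
    change Integrable _ (Kac764.PP μ)
    rcases le_or_gt r 0 with h0 | h0
    · have : ∀ ξ : ℕ → ℝ, Kac764.Ninf ξ {x : ℝ | 0 < |x| ∧ |x| < r} = 0 := by
        intro ξ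
        unfold Kac764.Ninf
        have : {x : ℝ | x ∈ {x : ℝ | 0 < |x| ∧ |x| < r} ∧ Kac764.F0 ξ x = 0} = ∅ := by
          ext x
          simp only [mem_setOf_eq, mem_empty_iff_false, iff_false, not_and]
          intro h
          linarith [h.1, h.2]
        rw [this, Set.ncard_empty]
      simp only [this]
      exact integrable_const _
    · have hA := (Kac764.A1.tendsto_nz μ hμ 0 r h0 (by norm_num) hr (by simp)).1
      have hB := (Kac764.A1.tendsto_nz μ hμ (-r) 0 (by linarith) (by linarith) (by norm_num) (by simp)).1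
      refine (hA.add hB).congr ?_
      filter_upwards [Kac764.M1.ae_finite_zeros μ hμ 0 r h0 (by norm_num) hr (by simp),
        Kac764.M1.ae_finite_zeros μ hμ (-r) 0 (by linarith) (by linarith) (by norm_num) (by simp)]
        with ξ h1 h2
      have hset : {x : ℝ | x ∈ {x : ℝ | 0 < |x| ∧ |x| < r} ∧ Kac764.F0 ξ x = 0}
          = {x : ℝ | x ∈ Ioo 0 r ∧ Kac764.F0 ξ x = 0} ∪ {x : ℝ | x ∈ Ioo (-r) 0 ∧ Kac764.F0 ξ x = 0} := by
        ext x
        simp only [mem_setOf_eq, mem_union, mem_Ioo]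
        constructor
        · rintro ⟨⟨h3, h4⟩, h5⟩
          rw [abs_lt] at h4
          rcases lt_trichotomy x 0 with h | h | h
          · exact Or.inr ⟨⟨h4.1, h⟩, h5⟩
          · simp [h] at h3
          · exact Or.inl ⟨⟨h, h4.2⟩, h5⟩
        · rintro (⟨⟨h3, h4⟩, h5⟩ | ⟨⟨h3, h4⟩, h5⟩)
          · exact ⟨⟨abs_pos.2 h3.ne', abs_lt.2 ⟨by linarith, h4⟩⟩, h5⟩
          · exact ⟨⟨abs_pos.2 h4.ne, abs_lt.2 ⟨h3, by linarith⟩⟩, h5⟩
      have hcard : Kac764.Ninf ξ {x : ℝ | 0 < |x| ∧ |x| < r}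
          = Kac764.Ninf ξ (Ioo 0 r) + Kac764.Ninf ξ (Ioo (-r) 0) := by
        unfold Kac764.Ninf
        rw [hset]
        refine Set.ncard_union_eq ?_ h1 h2
        rw [Set.disjoint_left]
        rintro x ⟨⟨hx1, _⟩, _⟩ ⟨⟨_, hx2⟩, _⟩
        linarith
      rw [hcard]
      push_cast
      rfl
  · obtain ⟨L, h1, h2⟩ := Kac764.Fin.main μ hμ
    refine ⟨L, ?_, ?_⟩
    · simp only [seriesZeros_eq]
      exact h1
    · unfold expectedRoots
      simp only [numRealRoots_eq, kacPoly_eq]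
      rw [kacConst_eq]
      exact h2

end Pool.Agent.Results.MP_5fc11c_pr.KacConstant
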